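import Mathlib
import Pool.Agent.Helper69.TS.Stmts

/-!
# Two scale argument: use of the equidistribution (module `use` of the project `MP_d7f79e_TS`)
-/

set_option autoImplicit false

open Finset Pool.Agent.Helper73.RK Pool.Agent.Helper69.TS

namespace Pool.Agent.Helper30.TS.use

/-- Reduction modulo `p` is injective on the moduli. -/
theorem inj_mod (c : Cfg) (hc : c.Good) {p : ℕ} (hp : p ∈ c.P) {q q' : ℕ} (hq : q ∈ c.P)
    (hq' : q' ∈ c.P) (h : q % p = q' % p) : q = q' := by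
  have h1 := hc.hlow p hp
  have h2 := hc.hlow q hq
  have h3 := hc.hlow q' hq'
  have h4 := hc.hup q hq
  have h5 := hc.hup q' hq'
  have hm := hc.hm
  have hQ := hc.hQ
  have key : ∀ a b : ℕ, c.Q ≤ b → 8 * c.m * a ≤ (8 * c.m + 1) * c.Q → a < b + p := by
    intro a b hb ha
    by_contra hcon
    push Not at hcon
    have : c.Q + c.Q ≤ a := by omega
    have h6 : 8 * c.m * (c.Q + c.Q) ≤ (8 * c.m + 1) * c.Q := (Nat.mul_le_mul_left _ this).trans ha
    nlinarith
  have a1 := key q q' h3 h4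
  have a2 := key q' q h2 h5
  exact Nat.ModEq.eq_of_abs_lt h (by rw [abs_lt]; constructor <;> omega)

theorem mod_mem (c : Cfg) (hc : c.Good) {p : ℕ} (hp : p ∈ c.P) {q : ℕ} (hq : q ∈ c.P)
    (h : q ≠ p) : q % p ∈ Ico 1 p := by
  have hpp : 0 < p := (hc.hprime p hp).pos
  rw [mem_Ico]
  refine ⟨?_, Nat.mod_lt _ hpp⟩
  rcases Nat.eq_zero_or_pos (q % p) with h0 | h0
  · exact absurd (inj_mod c hc hp hq hp (by rw [h0, Nat.mod_self])) h
  · exact h0

/-- The push-forward of a function along `q ↦ q % p`. -/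
noncomputable def push (P : Finset ℕ) (p : ℕ) (g : ℕ → ℝ) (u : ℕ) : ℝ :=
  ∑ q ∈ P, if q % p = u then g q else 0

theorem sum_push (c : Cfg) (hc : c.Good) {p : ℕ} (hp : p ∈ c.P) (g : ℕ → ℝ) (hg : g p = 0)
    (R : ℕ → Prop) [DecidablePred R] :
    (∑ u ∈ Ico 1 p, if R u then push c.P p g u else 0) =
      ∑ q ∈ c.P, if R (q % p) then g q else 0 := by
  have h1 : ∀ u ∈ Ico 1 p, (if R u then push c.P p g u else 0) =
      ∑ q ∈ c.P, if q % p = u then (if R (q % p) then g q else 0) else 0 := by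
    intro u _
    unfold push
    by_cases hR : R u
    · rw [if_pos hR]
      refine sum_congr rfl fun q _ => ?_
      by_cases hqu : q % p = u
      · rw [if_pos hqu, if_pos hqu, hqu, if_pos hR]
      · rw [if_neg hqu, if_neg hqu]
    · rw [if_neg hR]
      symm
      refine sum_eq_zero fun q _ => ?_
      by_cases hqu : q % p = u
      · rw [if_pos hqu, hqu, if_neg hR]
      · rw [if_neg hqu]
  rw [sum_congr rfl h1, sum_comm]
  refine sum_congr rfl fun q hq => ?_
  rw [sum_ite_eq]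
  by_cases hqp : q = p
  · subst hqp
    rw [hg]
    simp
  · rw [if_pos (mod_mem c hc hp hq hqp)]

theorem push_sq (c : Cfg) (hc : c.Good) {p : ℕ} (hp : p ∈ c.P) (g : ℕ → ℝ) (u : ℕ) :
    push c.P p g u ^ 2 = push c.P p (fun q => g q ^ 2) u := by
  unfold push
  by_cases h : ∃ q ∈ c.P, q % p = u
  · obtain ⟨q, hq, hqu⟩ := h
    have h1 : ∀ G : ℕ → ℝ, (∑ q ∈ c.P, if q % p = u then G q else 0) = G q := by
      intro G
      rw [sum_eq_single q]
      · rw [if_pos hqu]
      · intro b hb hbq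
        rw [if_neg]
        intro hbu
        exact hbq (inj_mod c hc hp hb hq (by rw [hbu, hqu]))
      · intro hn
        exact absurd hq hn
    rw [h1 g, h1 (fun q => g q ^ 2)]
  · push Not at h
    have h1 : ∀ G : ℕ → ℝ, (∑ q ∈ c.P, if q % p = u then G q else 0) = 0 := by
      intro G
      exact sum_eq_zero fun q hq => if_neg (h q hq)
    rw [h1 g, h1 (fun q => g q ^ 2)]
    norm_num

theorem sum_push' (c : Cfg) (hc : c.Good) {p : ℕ} (hp : p ∈ c.P) (g : ℕ → ℝ) (hg : g p = 0) :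
    (∑ u ∈ Ico 1 p, push c.P p g u) = ∑ q ∈ c.P, g q := by
  have := sum_push c hc hp g hg (fun _ => True)
  simpa using this

/-- The variance of the weighted number of partners. -/
theorem var_le : S_var_le := by
  intro c hc p hp W κ hS g hg
  have h := hS (push c.P p g)
  have h1 : ∀ t, (∑ u ∈ Ico 1 p, if t * u % p ∈ W then push c.P p g u else 0) =
      ∑ q ∈ c.P, if t * q % p ∈ W then g q else 0 := by
    intro t
    rw [sum_push c hc hp g hg (fun u => t * u % p ∈ W)]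
    refine sum_congr rfl fun q _ => ?_
    rw [Nat.mul_mod_mod]
  have h2 : (∑ u ∈ Ico 1 p, push c.P p g u ^ 2) = ∑ q ∈ c.P, g q ^ 2 := by
    rw [sum_congr rfl fun u _ => push_sq c hc hp g u]
    exact sum_push' c hc hp (fun q => g q ^ 2) (by simp [hg])
  simp only [h1] at h
  rw [sum_push' c hc hp g hg, h2] at h
  exact h

theorem card_mul (p q : ℕ) (hp : p.Prime) (hq : ¬ p ∣ q) (W : Finset ℕ)
    (hW : ∀ w ∈ W, 1 ≤ w ∧ w < p) :
    ((Ico 1 p).filter (fun t => t * q % p ∈ W)).card = W.card := by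
  have hmaps : Set.MapsTo (fun t => t * q % p) (Ico 1 p : Finset ℕ) (Ico 1 p : Finset ℕ) := by
    intro t ht
    rw [mem_coe, mem_Ico] at ht
    simp only [mem_coe, mem_Ico]
    refine ⟨?_, Nat.mod_lt _ hp.pos⟩
    rcases Nat.eq_zero_or_pos (t * q % p) with h0 | h0
    · exfalso
      have h1 : p ∣ t * q := Nat.dvd_of_mod_eq_zero h0
      rcases (hp.dvd_mul).1 h1 with h2 | h2
      · exact absurd (Nat.le_of_dvd (by omega) h2) (by omega)
      · exact hq h2
    · exact h0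
  have hcop : Nat.gcd p q = 1 := (hp.coprime_iff_not_dvd).2 hq
  have hinj : Set.InjOn (fun t => t * q % p) (Ico 1 p : Finset ℕ) := by
    intro t ht t' ht' h
    rw [mem_coe, mem_Ico] at ht ht'
    have h1 : t * q ≡ t' * q [MOD p] := h
    have h2 : t ≡ t' [MOD p] := Nat.ModEq.cancel_right_of_coprime hcop h1
    exact Nat.ModEq.eq_of_lt_of_lt h2 ht.2 ht'.2
  have hsurj : Set.SurjOn (fun t => t * q % p) (Ico 1 p : Finset ℕ) (Ico 1 p : Finset ℕ) :=
    Finset.surjOn_of_injOn_of_card_le _ hmaps hinj le_rfl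
  refine card_nbij (fun t => t * q % p) ?_ ?_ ?_
  · intro t ht
    exact (mem_filter.1 ht).2
  · intro t ht t' ht' h
    exact hinj (mem_coe.2 (mem_filter.1 ht).1) (mem_coe.2 (mem_filter.1 ht').1) h
  · intro w hw
    obtain ⟨t, ht, htw⟩ := hsurj (mem_coe.2 (mem_Ico.2 (hW w hw)))
    refine ⟨t, ?_, htw⟩
    rw [mem_coe, mem_filter]
    refine ⟨ht, ?_⟩
    have htw' : t * q % p = w := htw
    rw [htw']
    exact hw

/-- The mean of the weighted number of partners. -/
theorem sum_V : S_sum_V := by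
  intro c hc p hp W hW g hg
  rw [sum_comm, mul_sum]
  refine sum_congr rfl fun q hq => ?_
  by_cases hqp : q = p
  · subst hqp
    rw [hg]
    simp
  · have hpr := hc.hprime p hp
    have hnd : ¬ p ∣ q := by
      intro hd
      exact hqp ((Nat.prime_dvd_prime_iff_eq hpr (hc.hprime q hq)).1 hd).symm
    rw [← sum_filter, sum_const, card_mul p q hpr hnd W hW, nsmul_eq_mul]

/-- The second moment of the weighted number of partners. -/
theorem sq_le : S_sq_le := by
  intro c hc p hp W κ hW hκ hS g hg g0 g1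
  have hv := var_le c hc p hp W κ hS g hg
  have hs := sum_V c hc p hp W hW g hg
  have hp2 : 2 ≤ p := (hc.hprime p hp).two_le
  have hp1 : (0 : ℝ) < (p : ℝ) - 1 := by
    have : (2 : ℝ) ≤ p := by exact_mod_cast hp2
    linarith
  set S : ℝ := ∑ q ∈ c.P, g q with hSdef
  set X : ℕ → ℝ := fun t => ∑ q ∈ c.P, if t * q % p ∈ W then g q else 0 with hX
  set μ : ℝ := (W.card : ℝ) / ((p : ℝ) - 1) * S with hμ
  have hcard : ((Ico 1 p).card : ℝ) = (p : ℝ) - 1 := by
    rw [Nat.card_Ico]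
    push_cast [Nat.cast_sub (by omega : 1 ≤ p)]
    ring
  have e1 : ∑ t ∈ Ico 1 p, (X t - μ) ^ 2 =
      ∑ t ∈ Ico 1 p, X t ^ 2 - 2 * μ * ∑ t ∈ Ico 1 p, X t + ((p : ℝ) - 1) * μ ^ 2 := by
    have : ∀ t ∈ Ico 1 p, (X t - μ) ^ 2 = X t ^ 2 - 2 * μ * X t + μ ^ 2 := by
      intro t _
      ring
    rw [sum_congr rfl this, sum_add_distrib, sum_sub_distrib, ← mul_sum, sum_const, nsmul_eq_mul,
      hcard]
  have e2 : ∑ t ∈ Ico 1 p, X t = (W.card : ℝ) * S := hs
  have e3 : ((p : ℝ) - 1) * μ = (W.card : ℝ) * S := by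
    rw [hμ]
    field_simp
  have e4 : ((p : ℝ) - 1) * μ ^ 2 = (W.card : ℝ) ^ 2 * (S ^ 2 / ((p : ℝ) - 1)) := by
    rw [hμ]
    field_simp
  have e5 : ∑ q ∈ c.P, g q ^ 2 ≤ S := by
    refine sum_le_sum fun q _ => ?_
    have := g0 q
    have := g1 q
    nlinarith
  have e6 : ∑ t ∈ Ico 1 p, (X t - μ) ^ 2 ≤ κ * (W.card : ℝ) ^ 2 * ∑ q ∈ c.P, g q ^ 2 := hv
  have e7 : κ * (W.card : ℝ) ^ 2 * ∑ q ∈ c.P, g q ^ 2 ≤ κ * (W.card : ℝ) ^ 2 * S :=
    mul_le_mul_of_nonneg_left e5 (by positivity)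
  rw [e1, e2] at e6
  have e8 : 2 * μ * ((W.card : ℝ) * S) = 2 * (((p : ℝ) - 1) * μ ^ 2) := by
    rw [← e3]
    ring
  rw [e8] at e6
  have : ∑ t ∈ Ico 1 p, X t ^ 2 ≤ (W.card : ℝ) ^ 2 * (S ^ 2 / ((p : ℝ) - 1) + κ * S) := by
    rw [mul_add, ← e4]
    linarith
  exact this

theorem ite_blk (v m k w : ℕ) (x : ℝ) :
    (if w ∈ Ioc (m * v) ((m + k) * v) then x else 0) =
      ∑ b ∈ Ico m (m + k), if w ∈ blk v b then x else 0 := by
  induction k with
  | zero => simp
  | succ k ih =>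
    rw [← Nat.add_assoc, sum_Ico_succ_top (by omega), ← ih]
    unfold blk
    simp only [mem_Ioc]
    have h1 : m * v ≤ (m + k) * v := Nat.mul_le_mul_right _ (by omega)
    have h2 : (m + k) * v ≤ (m + k + 1) * v := Nat.mul_le_mul_right _ (by omega)
    by_cases h3 : w ≤ (m + k) * v
    · by_cases h4 : m * v < w
      · rw [if_pos ⟨h4, h3.trans h2⟩, if_pos ⟨h4, h3⟩, if_neg (by omega)]
        ring
      · rw [if_neg (by tauto), if_neg (by tauto), if_neg (by omega)]
        ring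
    · push Not at h3
      by_cases h5 : w ≤ (m + k + 1) * v
      · rw [if_pos ⟨h1.trans_lt h3, h5⟩, if_neg (by omega), if_pos ⟨h3, h5⟩]
        ring
      · rw [if_neg (by tauto), if_neg (by omega), if_neg (by tauto)]
        ring

/-- Equidistribution of a union of blocks. -/
theorem spec_union : S_spec_union := by
  intro p m v κ h g
  have hW : ∀ (t : ℕ), (∑ u ∈ Ico 1 p, if t * u % p ∈ Ioc (m * v) (2 * m * v) then g u else 0) =
      ∑ b ∈ Ico m (2 * m), ∑ u ∈ Ico 1 p, if t * u % p ∈ blk v b then g u else 0 := by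
    intro t
    rw [sum_comm]
    refine sum_congr rfl fun u _ => ?_
    rw [show 2 * m = m + m by ring]
    exact ite_blk v m m _ _
  have hc1 : ∀ b, ((blk v b).card : ℝ) = v := by
    intro b
    unfold blk
    rw [Nat.card_Ioc]
    congr 1
    rw [Nat.add_mul, Nat.one_mul]
    omega
  have hc2 : ((Ioc (m * v) (2 * m * v)).card : ℝ) = m * v := by
    rw [Nat.card_Ioc, show 2 * m * v = m * v + m * v by ring, Nat.add_sub_cancel]
    push_cast
    ring
  have hm : ((Ico m (2 * m)).card : ℝ) = m := by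
    rw [Nat.card_Ico]
    congr 1
    omega
  set S : ℝ := ∑ u ∈ Ico 1 p, g u with hS
  have hpt : ∀ t ∈ Ico 1 p,
      ((∑ u ∈ Ico 1 p, if t * u % p ∈ Ioc (m * v) (2 * m * v) then g u else 0) -
        ((Ioc (m * v) (2 * m * v)).card : ℝ) / ((p : ℝ) - 1) * S) ^ 2 ≤
      m * ∑ b ∈ Ico m (2 * m), ((∑ u ∈ Ico 1 p, if t * u % p ∈ blk v b then g u else 0) -
        ((blk v b).card : ℝ) / ((p : ℝ) - 1) * S) ^ 2 := by
    intro t _
    have e : (∑ u ∈ Ico 1 p, if t * u % p ∈ Ioc (m * v) (2 * m * v) then g u else 0) -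
        ((Ioc (m * v) (2 * m * v)).card : ℝ) / ((p : ℝ) - 1) * S =
        ∑ b ∈ Ico m (2 * m), ((∑ u ∈ Ico 1 p, if t * u % p ∈ blk v b then g u else 0) -
        ((blk v b).card : ℝ) / ((p : ℝ) - 1) * S) := by
      rw [hW t, sum_sub_distrib, hc2]
      congr 1
      rw [sum_congr rfl fun b _ => by rw [hc1 b], sum_const, nsmul_eq_mul, hm]
      ring
    rw [e]
    have := sq_sum_le_card_mul_sum_sq (s := Ico m (2 * m))
      (f := fun b => (∑ u ∈ Ico 1 p, if t * u % p ∈ blk v b then g u else 0) -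
        ((blk v b).card : ℝ) / ((p : ℝ) - 1) * S)
    rw [hm] at this
    exact this
  refine (sum_le_sum hpt).trans ?_
  rw [← mul_sum, sum_comm]
  have hb : ∑ b ∈ Ico m (2 * m), ∑ t ∈ Ico 1 p,
      ((∑ u ∈ Ico 1 p, if t * u % p ∈ blk v b then g u else 0) -
        ((blk v b).card : ℝ) / ((p : ℝ) - 1) * S) ^ 2 ≤
      ∑ b ∈ Ico m (2 * m), κ * (v : ℝ) ^ 2 * ∑ u ∈ Ico 1 p, g u ^ 2 := by
    refine sum_le_sum fun b hb => ?_
    have := h b hb g
    rw [hc1 b] at this ⊢
    exact this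
  rw [sum_const, nsmul_eq_mul, hm] at hb
  rw [hc2]
  calc _ ≤ (m : ℝ) * (m * (κ * (v : ℝ) ^ 2 * ∑ u ∈ Ico 1 p, g u ^ 2)) :=
        mul_le_mul_of_nonneg_left hb (by positivity)
    _ = _ := by ring

end Pool.Agent.Helper30.TS.use
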